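import Pool.Agent.helper40.FI3.SpecLA3

/-!
# Project fi (MP_baa4d7_al), block LA3, row LCB3

Equality in the count forces the values `g χ u` (`u ∉ Y`) to be prime to `M`.
-/

set_option autoImplicit false

namespace Pool.Agent.FI3

open Finset
open Pool.Agent.GR Pool.Agent.FI

/-- the orbit map `t ↦ tw t l₁` is injective on `I` -/
theorem LCB3_inj {D : Type} [CommGroup D] (I : Subgroup (MulAut D)) (l₁ : D →* ℂˣ)
    (h : ∀ t ∈ I, tw t l₁ = l₁ → t = 1) :
    Function.Injective (fun t : I => tw (t : MulAut D) l₁) := by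
  intro t t' htt
  have h1 : tw ((t : MulAut D) * (t' : MulAut D)⁻¹) l₁ = l₁ := by
    have h2 : tw (t : MulAut D) l₁ = tw (t' : MulAut D) l₁ := htt
    rw [tw_mul, h2, ← tw_mul, mul_inv_cancel, tw_one]
  have h3 := h _ (I.mul_mem t.2 (I.inv_mem t'.2)) h1
  exact Subtype.ext (mul_inv_eq_one.1 h3)

/-- counting: if `S` is covered by the `K m`, `c * |K m| ≤ B` and `|N| * B = c * |S|`, `c > 0`, then all are
equalities and the `K m` are disjoint -/
theorem LCB3_cnt {α β : Type} [DecidableEq α] (N : Finset β) (S : Finset α) (K : β → Finset α) (c B : ℕ)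
    (hc : 0 < c) (hK : ∀ m ∈ N, K m ⊆ S) (hcov : ∀ x ∈ S, ∃ m ∈ N, x ∈ K m) (hB : ∀ m ∈ N, c * (K m).card ≤ B)
    (hS : c * S.card = N.card * B) :
    (∀ m ∈ N, c * (K m).card = B) ∧ ∀ x ∈ S, ∀ m ∈ N, ∀ m' ∈ N, x ∈ K m → x ∈ K m' → m = m' := by
  classical
  have h1 : ∑ m ∈ N, (K m).card = ∑ x ∈ S, (N.filter fun m => x ∈ K m).card := by
    have h2 : ∀ m ∈ N, (K m).card = ∑ x ∈ S, if x ∈ K m then 1 else 0 := by
      intro m hm
      rw [← card_filter, filter_mem_eq_inter, inter_eq_right.mpr (hK m hm)]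
    rw [sum_congr rfl h2, sum_comm]
    refine sum_congr rfl fun x _ => ?_
    rw [card_filter]
  have h3 : ∀ x ∈ S, 1 ≤ (N.filter fun m => x ∈ K m).card := by
    intro x hx
    obtain ⟨m, hm, hxm⟩ := hcov x hx
    exact card_pos.mpr ⟨m, mem_filter.mpr ⟨hm, hxm⟩⟩
  have h4 : ∑ _x ∈ S, 1 ≤ ∑ x ∈ S, (N.filter fun m => x ∈ K m).card := sum_le_sum h3
  have h5 : ∑ m ∈ N, c * (K m).card ≤ ∑ _m ∈ N, B := sum_le_sum hB
  rw [← mul_sum] at h5
  have h6 : ∑ _x ∈ S, 1 = S.card := by rw [sum_const, smul_eq_mul, mul_one]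
  have h7 : ∑ _m ∈ N, B = N.card * B := by rw [sum_const, smul_eq_mul]
  have h8 : c * ∑ m ∈ N, (K m).card = N.card * B := by
    refine le_antisymm (h7 ▸ h5) ?_
    rw [← hS]
    refine Nat.mul_le_mul_left c ?_
    rw [h1, ← h6]
    exact h4
  have h9 : ∑ m ∈ N, (K m).card = S.card := by
    rw [← hS] at h8
    exact Nat.eq_of_mul_eq_mul_left hc h8
  constructor
  · have h10 : ∑ m ∈ N, c * (K m).card = ∑ _m ∈ N, B := by rw [← mul_sum, h8, h7]
    exact (sum_eq_sum_iff_of_le hB).1 h10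
  · intro x hx m hm m' hm' hxm hxm'
    have h10 : ∑ _x ∈ S, 1 = ∑ x ∈ S, (N.filter fun m => x ∈ K m).card := by rw [h6, ← h1, h9]
    have h11 := (sum_eq_sum_iff_of_le h3).1 h10 x hx
    obtain ⟨a, ha⟩ := card_eq_one.1 h11.symm
    have h12 : m ∈ ({a} : Finset β) := ha ▸ mem_filter.mpr ⟨hm, hxm⟩
    have h13 : m' ∈ ({a} : Finset β) := ha ▸ mem_filter.mpr ⟨hm', hxm'⟩
    rw [mem_singleton.1 h12, mem_singleton.1 h13]

/-- LCB3 -/
theorem LCB3 (hLKM3 : LKM3_stmt) (hLRP3 : LRP3_stmt) (hLFI3 : LFI3_stmt) (hLFR3 : LFR3_stmt) : LCB3_stmt := by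
  classical
  intro p M D _ _ _ X _ Z Y I g l₀ hS hG hcard χ hχ u hu hM
  obtain ⟨N, hN⟩ := hLRP3 p D X Z Y I g l₀ hG
  have hA0 : ∀ (χ : X) (l : D →* ℂˣ), ∃ a : ℤ, ∀ m ∈ N, l ∈ ov Y m →
      ∑ v, g χ v * (lv l v⁻¹ - lv m v⁻¹) = (Nat.card D : ℂ) * a := by
    intro χ l
    by_cases h : ∃ m ∈ N, l ∈ ov Y m
    · obtain ⟨m, hm, hl⟩ := h
      obtain ⟨a, ha⟩ := hG.gi χ l m (mem_ov.1 hl)
      refine ⟨a, fun m' hm' hl' => ?_⟩
      have h1 : m = m' := hN.dis m hm m' hm' fun y hy => by rw [← mem_ov.1 hl y hy, mem_ov.1 hl' y hy]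
      rw [← h1]
      exact ha
    · exact ⟨0, fun m hm hl => absurd ⟨m, hm, hl⟩ h⟩
  choose A hA using hA0
  have hLA : ∀ m ∈ N, LAi Y m g A := fun m hm χ l hl => hA χ l m hm hl
  have hlX : ∀ m ∈ N, lX Z m g = lX Z l₀ g := fun m hm => lX_congr (hN.oz m hm)
  have hKM : ∀ m ∈ N, Nat.card I * (lK Y m A (lX Z l₀ g)).card ≤ (Y.index - 1) + Nat.card I ^ 2 := by
    intro m hm
    have h := (hLKM3 p D X Z Y I g m A hG (hN.fx m hm) (hLA m hm)).1
    rw [hlX m hm] at h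
    exact h
  have hcov : ∀ ψ ∈ lX Z l₀ g, ∃ m ∈ N, ψ ∈ lK Y m A (lX Z l₀ g) := by
    intro ψ hψ
    by_contra hn
    push Not at hn
    obtain ⟨v, hv, hv0⟩ := hG.gn ψ
    refine hv0 ?_
    rw [hLFI3 D X Z Y I g l₀ N A hG.zy hN hLA ψ hψ v hv]
    refine sum_eq_zero fun m hm => sum_eq_zero fun l hl => ?_
    have h1 : A ψ l = 0 := by
      by_contra h2
      exact hn m hm (mem_lK.2 ⟨hψ, l, hl, h2⟩)
    rw [h1, Int.cast_zero, zero_mul]
  have hI0 : 0 < Nat.card I := Nat.card_pos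
  obtain ⟨hE, hU⟩ := LCB3_cnt N (lX Z l₀ g) (fun m => lK Y m A (lX Z l₀ g)) (Nat.card I)
    ((Y.index - 1) + Nat.card I ^ 2) hI0 (fun m _ x hx => (mem_lK.1 hx).1) hcov hKM (by rw [hcard, hN.crd])
  obtain ⟨m, hm, hχm⟩ := hcov χ hχ
  have hg : g χ u = ∑ l ∈ ov Y m, (A χ l : ℂ) * lv l u := by
    rw [hLFI3 D X Z Y I g l₀ N A hG.zy hN hLA χ hχ u hu]
    refine sum_eq_single m (fun m' hm' hne => sum_eq_zero fun l hl => ?_) fun h => absurd hm h
    have h1 : A χ l = 0 := by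
      by_contra h2
      exact hne (hU χ hχ m' hm' m hm (mem_lK.2 ⟨hχ, l, hl, h2⟩) hχm)
    rw [h1, Int.cast_zero, zero_mul]
  have hF : LFx I m := hN.fx m hm
  have hD0 : (Nat.card D : ℂ) ≠ 0 := Nat.cast_ne_zero.2 Nat.card_pos.ne'
  have hA1 : A χ m = 0 := by
    have h1 := hA χ m m hm self_mem_ov
    rw [Finset.sum_eq_zero fun v _ => by rw [sub_self, mul_zero]] at h1
    have h2 := (mul_eq_zero.1 h1.symm).resolve_left hD0
    exact_mod_cast h2
  have hL2 := (hLKM3 p D X Z Y I g m A hG hF (hLA m hm)).2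
  rw [hlX m hm] at hL2
  obtain ⟨e, he, hc⟩ := hL2 (hE m hm) χ hχm
  have hpe : ¬ (p : ℤ) ∣ e := by
    intro h
    have h1 : (p : ℤ) ∣ 1 := by
      rcases he with he | he
      · rwa [he] at h
      · rw [he] at h
        exact (dvd_neg.1 h)
    have h2 : p ∣ 1 := by exact_mod_cast h1
    exact hG.pr.one_lt.ne' (Nat.dvd_one.1 h2)
  rcases hc with hc | ⟨l₁, hl1m, hl1, hc1, hc2⟩
  · have h1 : g χ u = -((e : ℂ) * lv m u) := by
      have h2 : ∀ l ∈ ov Y m, (A χ l : ℂ) * lv l u =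
          (e : ℂ) * lv l u - (if l = m then (e : ℂ) * lv m u else 0) := by
        intro l hl
        by_cases h3 : l = m
        · subst h3
          rw [hA1, if_pos rfl]
          push_cast
          ring
        · rw [if_neg h3, hc l hl h3, sub_zero]
      rw [hg, Finset.sum_congr rfl h2, Finset.sum_sub_distrib, ← Finset.mul_sum, sum_ov _ _ _ hu,
        Finset.sum_ite_eq' (ov Y m) m, if_pos self_mem_ov]
      ring
    have h2 : InM M ((e : ℂ) * (lv m u - 1)) :=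
      InM.mul_left hS (IntAt.intCast hS e) (lv_modM hS hG.pg m u)
    have h3 := (InM.sub hS hM.neg h2)
    have h4 : -g χ u - (e : ℂ) * (lv m u - 1) = ((e : ℤ) : ℂ) := by
      rw [h1]
      ring
    rw [h4, InM.intCast hS] at h3
    exact hpe h3
  · have : Fintype I := Fintype.ofFinite I
    have hinj : Function.Injective (fun t : I => tw (t : MulAut D) l₁) :=
      LCB3_inj I l₁ fun t ht h => hLFR3 p D X Z Y I g m l₁ t hG hF hl1m hl1 ht h
    let O : Finset (D →* ℂˣ) := Finset.univ.image (fun t : I => tw (t : MulAut D) l₁)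
    have hO : O.card = Nat.card I := by
      rw [Finset.card_image_of_injective _ hinj, Finset.card_univ, Nat.card_eq_fintype_card]
    have hOe : ∀ l ∈ O, A χ l = e := by
      intro l hl
      obtain ⟨t, _, ht⟩ := Finset.mem_image.1 hl
      rw [← ht]
      exact hc1 t t.2
    have hsub : O ⊆ ov Y m := by
      intro l hl
      obtain ⟨t, _, ht⟩ := Finset.mem_image.1 hl
      rw [← ht]
      refine mem_ov.2 fun z hz => ?_
      rw [lv_tw, hG.fz t t.2 z hz]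
      exact mem_ov.1 hl1m z hz
    have h0 : ∀ l ∈ ov Y m, l ∉ O → (A χ l : ℂ) * lv l u = 0 := by
      intro l hl hlO
      rw [hc2 l hl fun t ht h => hlO (Finset.mem_image.2 ⟨⟨t, ht⟩, Finset.mem_univ _, h⟩)]
      simp
    have h1 : g χ u = ∑ l ∈ O, (e : ℂ) * lv l u := by
      rw [hg, ← Finset.sum_subset hsub h0]
      exact Finset.sum_congr rfl fun l hl => by rw [hOe l hl]
    have h2 : InM M (∑ l ∈ O, (e : ℂ) * (lv l u - 1)) :=
      InM.sum hS O fun l _ => InM.mul_left hS (IntAt.intCast hS e) (lv_modM hS hG.pg l u)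
    have h3 : g χ u - ∑ l ∈ O, (e : ℂ) * (lv l u - 1) = ((e * (Nat.card I : ℤ) : ℤ) : ℂ) := by
      rw [h1, ← Finset.sum_sub_distrib, Finset.sum_congr rfl fun l _ => by
        rw [← mul_sub, sub_sub_cancel, mul_one], Finset.sum_const, hO, nsmul_eq_mul]
      push_cast
      ring
    have h4 := InM.sub hS hM h2
    rw [h3, InM.intCast hS] at h4
    refine hG.cop ?_
    have h5 : (p : ℤ) ∣ (Nat.card I : ℤ) := by
      rcases he with he | he
      · rwa [he, one_mul] at h4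
      · rw [he, neg_one_mul] at h4
        exact (dvd_neg.1 h4)
    exact_mod_cast h5

end Pool.Agent.FI3
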